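import Mathlib
import Pool.Agent.Helper377.Final

/-!
Numbers `n + k` divisible by high powers of primes: the engine of `Helper377` with cofactors up to a power of `n`.
-/

namespace Pool.Agent.T9h56.ES

open Finset Nat Pool.Agent.Helper377.Mass Pool.Agent.Helper377.Count Pool.Agent.Helper377.Engine

/-- Few `c` in `[2 ^ (y - w), 2 ^ y]` have a power `c ^ a > n / 2 ^ (L / 6)` dividing some `n + k`, `k ≤ 2 ^ y`. -/
theorem few (n L w z : ℕ) (hw : 8 ≤ w) (hL2 : L < 2 ^ w)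
    (hn1 : 2 ^ L ≤ n) (hn2 : n < 2 ^ (L + 1)) (hz : 31 * w ≤ z) (hzL : 2000 * (z + w) ^ 2 ≤ L)
    (G : Finset ℕ) (hGX : ∀ p ∈ G, p ≤ 2 ^ (z + w)) (hG1 : ∀ p ∈ G, 2 ^ z ≤ p)
    (a : ℕ → ℕ) (k : ℕ → ℕ) (hk : ∀ p ∈ G, k p ≤ 2 ^ (z + w)) (hdvd : ∀ p ∈ G, p ^ a p ∣ n + k p)
    (hgood : ∀ p ∈ G, n < 2 ^ (L / 6) * p ^ a p) :
    G.card ≤ 2 ^ (z + 2) := by
  by_contra hcard
  rw [not_le] at hcard
  obtain ⟨X, hX⟩ : ∃ X, X = 2 ^ (z + w) := ⟨_, rfl⟩
  rw [← hX] at hGX hk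
  have hz1 : 1 ≤ z := by omega
  have hzw : z + w ≤ (z + w) ^ 2 := by nlinarith
  have hzL' : 2000 * (z + w) ≤ L := le_trans (Nat.mul_le_mul_left _ hzw) hzL
  have hXn : X ≤ n := by
    rw [hX]
    refine le_trans (Nat.pow_le_pow_right (by norm_num) ?_) hn1
    omega
  have hpow : ∀ p ∈ G, p ^ a p < 2 ^ (L + 2) := by
    intro p hp
    have h1 : p ^ a p ≤ n + k p := Nat.le_of_dvd
      (by have := Nat.one_le_two_pow (n := L); omega) (hdvd p hp)
    have h4 := hk p hp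
    have h5 : 2 ^ (L + 2) = 2 * 2 ^ (L + 1) := by ring
    omega
  have hale : ∀ p ∈ G, z * a p < L + 2 := by
    intro p hp
    have h2 : 2 ^ (z * a p) ≤ p ^ a p := by
      rw [pow_mul]
      exact Nat.pow_le_pow_left (hG1 p hp) _
    exact (Nat.pow_lt_pow_iff_right (by norm_num)).1 (h2.trans_lt (hpow p hp))
  have hale' : ∀ p ∈ G, a p < L + 2 := by
    intro p hp
    have := hale p hp
    nlinarith [Nat.zero_le (a p)]
  -- pigeonhole
  have hpig : ∃ p ∈ G, ∃ q ∈ G, p ≠ q ∧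
      (fun p => (a p, p / 2 ^ (2 * w))) p = (fun p => (a p, p / 2 ^ (2 * w))) q := by
    apply Finset.exists_ne_map_eq_of_card_lt_of_maps_to
      (t := (range (L + 2)) ×ˢ (range (2 ^ (z - w) + 1)))
    · rw [Finset.card_product, Finset.card_range, Finset.card_range]
      refine lt_of_le_of_lt ?_ hcard
      have h2 : L + 2 ≤ 2 * 2 ^ w := by
        have : 1 ≤ 2 ^ w := Nat.one_le_two_pow
        omega
      have h3 : 2 ^ (z - w) + 1 ≤ 2 * 2 ^ (z - w) := by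
        have := Nat.one_le_two_pow (n := z - w)
        omega
      calc (L + 2) * (2 ^ (z - w) + 1) ≤ (2 * 2 ^ w) * (2 * 2 ^ (z - w)) :=
            Nat.mul_le_mul h2 h3
        _ = 4 * (2 ^ (w + (z - w))) := by rw [pow_add]; ring
        _ = 2 ^ (z + 2) := by
          rw [show w + (z - w) = z by omega, pow_add]; ring
    · intro p hp
      have hp' : p ∈ G := hp
      show (a p, p / 2 ^ (2 * w)) ∈ _
      rw [Finset.mem_coe, Finset.mem_product, Finset.mem_range, Finset.mem_range]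
      refine ⟨hale' p hp', ?_⟩
      have h1 : p / 2 ^ (2 * w) ≤ 2 ^ (z + w) / 2 ^ (2 * w) :=
        Nat.div_le_div_right (hX ▸ hGX p hp')
      have h2 : 2 ^ (z + w) / 2 ^ (2 * w) = 2 ^ (z - w) := by
        rw [Nat.pow_div (by omega) (by norm_num)]
        congr 1; omega
      omega
  -- extract an ordered pair
  obtain ⟨c, hc, q, hq, hcq, haeq, hdiv⟩ : ∃ c ∈ G, ∃ q ∈ G, c < q ∧ a c = a q ∧
      c / 2 ^ (2 * w) = q / 2 ^ (2 * w) := by
    obtain ⟨p, hp, q, hq, hne, heq⟩ := hpig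
    simp only [Prod.mk.injEq] at heq
    rcases Nat.lt_or_gt_of_ne hne with h | h
    · exact ⟨p, hp, q, hq, h, heq.1, heq.2⟩
    · exact ⟨q, hq, p, hp, h, heq.1.symm, heq.2.symm⟩
  obtain ⟨t, rfl⟩ := Nat.exists_eq_add_of_le hcq.le
  have ht1 : 1 ≤ t := by omega
  have ht2 : t < 2 ^ (2 * w) := by
    have h1 := Nat.div_add_mod c (2 ^ (2 * w))
    have h2 := Nat.div_add_mod (c + t) (2 ^ (2 * w))
    have h3 := Nat.mod_lt (c + t) (show 0 < 2 ^ (2 * w) by positivity)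
    rw [← hdiv] at h2
    omega
  obtain ⟨s1, hs1⟩ := hdvd c hc
  obtain ⟨s2, hs2⟩ := hdvd (c + t) hq
  rw [← haeq] at hs2
  have hzα := hale c hc
  have hαL' := hale' c hc
  have hg1 := hgood c hc
  have hg2 := hgood (c + t) hq
  rw [← haeq] at hg2
  obtain ⟨α, hα⟩ : ∃ α, α = a c := ⟨_, rfl⟩
  rw [← hα] at hs1 hs2 hzα hg1 hg2 hαL'
  have hc1 : 2 ^ z ≤ c := hG1 c hc
  have hcpos : 1 ≤ c := le_trans Nat.one_le_two_pow hc1
  have hn0 : 0 < n := by omega
  have hs1pos : 1 ≤ s1 := by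
    rcases Nat.eq_zero_or_pos s1 with h | h
    · rw [h, mul_zero] at hs1; omega
    · exact h
  have hs2pos : 1 ≤ s2 := by
    rcases Nat.eq_zero_or_pos s2 with h | h
    · rw [h, mul_zero] at hs2; omega
    · exact h
  have hs1M : s1 ≤ 2 ^ (L / 6 + 1) := by
    have h2 := hk c hc
    have h3 : c ^ α * s1 ≤ c ^ α * 2 ^ (L / 6 + 1) := by
      calc c ^ α * s1 = n + k c := hs1.symm
        _ ≤ 2 * n := by omega
        _ ≤ 2 * (2 ^ (L / 6) * c ^ α) := by omega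
        _ = c ^ α * 2 ^ (L / 6 + 1) := by ring
    exact Nat.le_of_mul_le_mul_left h3 (by positivity)
  have hs2M : s2 ≤ 2 ^ (L / 6 + 1) := by
    have h2 := hk (c + t) hq
    have h3 : (c + t) ^ α * s2 ≤ (c + t) ^ α * 2 ^ (L / 6 + 1) := by
      calc (c + t) ^ α * s2 = n + k (c + t) := hs2.symm
        _ ≤ 2 * n := by omega
        _ ≤ 2 * (2 ^ (L / 6) * (c + t) ^ α) := by omega
        _ = (c + t) ^ α * 2 ^ (L / 6 + 1) := by ring
    exact Nat.le_of_mul_le_mul_left h3 (by positivity)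
  have hcX : c ≤ X := hGX c hc
  -- lower bound for `α`
  have hlowα : L < L / 6 + (z + w) * α := by
    have h1 : 2 ^ L < 2 ^ (L / 6 + (z + w) * α) := by
      calc 2 ^ L ≤ n := hn1
        _ < 2 ^ (L / 6) * c ^ α := hg1
        _ ≤ 2 ^ (L / 6) * (2 ^ (z + w)) ^ α := Nat.mul_le_mul_left _
            (Nat.pow_le_pow_left (hX ▸ hcX) _)
        _ = 2 ^ (L / 6 + (z + w) * α) := by rw [← pow_mul, ← pow_add]
    exact (Nat.pow_lt_pow_iff_right (by norm_num)).1 h1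
  obtain ⟨r, hr⟩ : ∃ r, r = α / 3 := ⟨_, rfl⟩
  have hr1 : 3 * r ≤ α := by omega
  have hr2 : α ≤ 3 * r + 2 := by omega
  -- products as atoms
  have hwα : 31 * (w * α) ≤ z * α := by
    calc 31 * (w * α) = (31 * w) * α := by ring
      _ ≤ z * α := Nat.mul_le_mul_right _ hz
  have hwr : 31 * (w * r) ≤ z * r := by
    calc 31 * (w * r) = (31 * w) * r := by ring
      _ ≤ z * r := Nat.mul_le_mul_right _ hz
  have h8r : 8 * r ≤ w * r := Nat.mul_le_mul_right _ hw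
  have hzr1 : 3 * (z * r) ≤ z * α := by
    calc 3 * (z * r) = z * (3 * r) := by ring
      _ ≤ z * α := Nat.mul_le_mul_left _ hr1
  have hwr1 : 3 * (w * r) ≤ w * α := by
    calc 3 * (w * r) = w * (3 * r) := by ring
      _ ≤ w * α := Nat.mul_le_mul_left _ hr1
  have hzr2 : z * α ≤ 3 * (z * r) + 2 * z := by
    calc z * α ≤ z * (3 * r + 2) := Nat.mul_le_mul_left _ hr2
      _ = 3 * (z * r) + 2 * z := by ring
  have hwr2 : w * α ≤ 3 * (w * r) + 2 * w := by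
    calc w * α ≤ w * (3 * r + 2) := Nat.mul_le_mul_left _ hr2
      _ = 3 * (w * r) + 2 * w := by ring
  have hlow' : L < L / 6 + (z * α + w * α) := by
    have : (z + w) * α = z * α + w * α := by ring
    omega
  have hαL : α ≤ L := by nlinarith
  have hr0 : 1 ≤ r := by
    by_contra hcon
    have h0 : r = 0 := by omega
    rw [h0] at hzr2 hwr2
    omega
  have hαr : α + r ≤ 2 ^ (w + 1) := by
    have : 2 ^ (w + 1) = 2 * 2 ^ w := by ring
    omega
  -- apply the engine with r = α / 3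
  refine engine r α n c t (k c) (k (c + t)) s1 s2 X (2 ^ (L / 6 + 1)) ?_ hs1 hs2
    ht1 hcpos (hGX _ hq) (hk c hc) (hk _ hq) hs1M hs2M hs1pos hs2pos ?_ ?_ ?_
  · omega
  · -- 4 (α + r) t ≤ c
    calc 4 * (α + r) * t ≤ 4 * 2 ^ (w + 1) * 2 ^ (2 * w) :=
          Nat.mul_le_mul (Nat.mul_le_mul_left _ hαr) ht2.le
      _ = 2 ^ (2 + (w + 1) + 2 * w) := by ring
      _ ≤ 2 ^ z := Nat.pow_le_pow_right (by norm_num) (by omega)
      _ ≤ c := hc1
  · -- the main term is small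
    have h1 : 2 * (α + r) * t ≤ 2 ^ (3 * w + 2) := by
      calc 2 * (α + r) * t ≤ 2 * 2 ^ (w + 1) * 2 ^ (2 * w) :=
            Nat.mul_le_mul (Nat.mul_le_mul_left _ hαr) ht2.le
        _ = 2 ^ (3 * w + 2) := by ring
    calc 8 * 2 ^ (L / 6 + 1) * (2 * (α + r) * t) ^ (2 * r + 1)
        ≤ 8 * 2 ^ (L / 6 + 1) * (2 ^ (3 * w + 2)) ^ (2 * r + 1) :=
          Nat.mul_le_mul_left _ (Nat.pow_le_pow_left h1 _)
      _ = 2 ^ 3 * 2 ^ (L / 6 + 1) * 2 ^ ((3 * w + 2) * (2 * r + 1)) := by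
          rw [pow_mul 2 (3 * w + 2) (2 * r + 1)]; norm_num
      _ = 2 ^ (3 + (L / 6 + 1) + (3 * w + 2) * (2 * r + 1)) := by
          rw [pow_add 2 (3 + (L / 6 + 1)), pow_add 2 3]
      _ < 2 ^ (z * (r + 1)) := by
          apply Nat.pow_lt_pow_right (by norm_num)
          have e1 : 3 + (L / 6 + 1) + (3 * w + 2) * (2 * r + 1) =
            L / 6 + 6 * (w * r) + 4 * r + 3 * w + 6 := by ring
          have e2 : z * (r + 1) = z * r + z := by ring
          rw [e1, e2]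
          omega
      _ = (2 ^ z) ^ (r + 1) := by rw [← pow_mul]
      _ ≤ c ^ (r + 1) := Nat.pow_le_pow_left hc1 _
  · -- n is large
    have h1 : r + 1 ≤ 2 ^ (r + 1) := Nat.lt_two_pow_self.le
    have h2 : (α + r) ^ r ≤ 2 ^ ((w + 1) * r) := by
      rw [pow_mul]; exact Nat.pow_le_pow_left hαr _
    have h3 : (4 : ℕ) ^ r = 2 ^ (2 * r) := by rw [pow_mul]; norm_num
    have h4 : X ^ r = 2 ^ ((z + w) * r) := by rw [hX, ← pow_mul]
    have h5 : X ^ (r + 1) = 2 ^ ((z + w) * (r + 1)) := by rw [hX, ← pow_mul]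
    have h6 : (r + 1) * ((α + r) ^ r * 4 ^ r * X ^ r) ≤
        2 ^ (r + 1 + ((w + 1) * r + 2 * r + (z + w) * r)) := by
      rw [h3, h4, pow_add 2 (r + 1), pow_add 2 ((w + 1) * r + 2 * r), pow_add 2 ((w + 1) * r)]
      exact Nat.mul_le_mul h1 (Nat.mul_le_mul_right _ (Nat.mul_le_mul_right _ h2))
    obtain ⟨E, hE⟩ : ∃ E, E = 2 + (z + w) + (L / 6 + 1) +
      (r + 1 + ((w + 1) * r + 2 * r + (z + w) * r)) + (z + w) * (r + 1) := ⟨_, rfl⟩
    have hEL : E < L := by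
      have e1 : E = L / 6 + 4 + 2 * z + 2 * w + 4 * r + 3 * (w * r) + 2 * (z * r) := by
        rw [hE]; ring
      rw [e1]
      omega
    have h7 : 4 * X * 2 ^ (L / 6 + 1) * 2 ^ (r + 1 + ((w + 1) * r + 2 * r + (z + w) * r)) *
        X ^ (r + 1) = 2 ^ E := by
      rw [h5, hX, hE, pow_add 2 (2 + (z + w) + (L / 6 + 1) +
            (r + 1 + ((w + 1) * r + 2 * r + (z + w) * r))), pow_add 2 (2 + (z + w) +
            (L / 6 + 1)), pow_add 2 (2 + (z + w)), pow_add 2 2 (z + w)]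
      norm_num
    have h8 : 4 * X * 2 ^ (L / 6 + 1) * ((r + 1) * ((α + r) ^ r * 4 ^ r * X ^ r)) *
        X ^ (r + 1) ≤ 2 ^ E := by
      rw [← h7]
      exact Nat.mul_le_mul_right _ (Nat.mul_le_mul_left _ h6)
    have h9 : 2 ^ E < 2 ^ L := Nat.pow_lt_pow_right (by norm_num) hEL
    exact lt_of_le_of_lt h8 (lt_of_lt_of_le h9 hn1)

end Pool.Agent.T9h56.ES
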