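import Mathlib
import Pool.Agent.Helper377.Main
import Pool.Agent.T9h56.ES.Fin

/-!
A positive proportion of the primes `q ≤ X` have a companion in the first `n + k` they divide.
-/

namespace Pool.Agent.T9h56.ES

open Finset Nat Pool.Agent.Helper377.Mass Pool.Agent.Helper377.Count Pool.Agent.Helper377.Main

/-- The least `k` with `q ∣ n + k`. -/
def kk (n q : ℕ) : ℕ := (q - n % q) % q

/-- Two primes larger than `k` divide `n + k`. -/
def Two (n k : ℕ) : Prop :=
  ∃ p q : ℕ, p.Prime ∧ q.Prime ∧ p ≠ q ∧ k < p ∧ k < q ∧ p ∣ n + k ∧ q ∣ n + k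

open Classical in
theorem prop (n X L w z : ℕ) (hw : 8 ≤ w) (_hL1 : 2 ^ (w - 1) ≤ L) (hL2 : L < 2 ^ w)
    (hn1 : 2 ^ L ≤ n) (hn2 : n < 2 ^ (L + 1)) (hz : 31 * w ≤ z) (hzL : 2000 * (z + w) ^ 2 ≤ L)
    (hX1 : 2 ^ (z + w - 1) ≤ X) (hX2 : X < 2 ^ (z + w)) :
    ((range (X + 1)).filter Nat.Prime).card ≤
      7 * (((range (X + 1)).filter Nat.Prime).filter
        (fun q => kk n q = 0 ∨ Two n (kk n q))).card := by
  have hn0 : 0 < n := lt_of_lt_of_le (by positivity) hn1
  obtain ⟨y, hy⟩ : ∃ y, y = z + w := ⟨_, rfl⟩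
  rw [← hy] at hzL hX1 hX2
  have hy1 : 1 ≤ y := by omega
  have hyy : y ≤ y ^ 2 := by nlinarith
  have hyL : 2000 * y ≤ L := le_trans (Nat.mul_le_mul_left _ hyy) hzL
  have hX0 : 0 < X := lt_of_lt_of_le (by positivity) hX1
  have hXn : X ≤ n := by
    refine le_trans hX2.le (le_trans (Nat.pow_le_pow_right (by norm_num) ?_) hn1)
    omega
  set P := (range (X + 1)).filter Nat.Prime with hP
  set B := P.filter (fun q => kk n q = 0 ∨ Two n (kk n q)) with hB
  set A := P.filter (fun q => ¬ (kk n q = 0 ∨ Two n (kk n q))) with hA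
  have hPmem : ∀ q ∈ P, q ≤ X ∧ q.Prime := by
    intro q hq
    rw [hP, Finset.mem_filter, Finset.mem_range] at hq
    exact ⟨by omega, hq.2⟩
  have hAP : ∀ q ∈ A, q ∈ P := fun q hq => (Finset.mem_filter.1 hq).1
  have hklt : ∀ q ∈ A, kk n q < q := fun q hq => Nat.mod_lt _ (hPmem q (hAP q hq)).2.pos
  have hkdvd : ∀ q ∈ A, q ∣ n + kk n q := fun q hq => kdvd q n (hPmem q (hAP q hq)).2.pos
  have hkX : ∀ q ∈ A, kk n q ≤ X := by
    intro q hq
    have := hklt q hq
    have := (hPmem q (hAP q hq)).1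
    omega
  have hno : ∀ q ∈ A, ¬ Two n (kk n q) := fun q hq h => (Finset.mem_filter.1 hq).2 (Or.inr h)
  have hinj : Set.InjOn (kk n) A := by
    intro q hq q' hq' heq
    by_contra hne
    have hq1 : q ∈ A := hq
    have hq2 : q' ∈ A := hq'
    refine hno q hq1 ⟨q, q', (hPmem q (hAP q hq1)).2, (hPmem q' (hAP q' hq2)).2, hne,
      hklt q hq1, ?_, hkdvd q hq1, ?_⟩
    · rw [heq]; exact hklt q' hq2
    · rw [heq]; exact hkdvd q' hq2
  have hsm : ∀ q ∈ A, ∀ p, p.Prime → p ∣ n + kk n q → p ≤ X := by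
    intro q hq p hp hpd
    by_contra h
    rw [not_le] at h
    have h1 := (hPmem q (hAP q hq)).1
    have h2 := hklt q hq
    exact hno q hq ⟨q, p, (hPmem q (hAP q hq)).2, hp, (by omega), h2, (by omega),
      hkdvd q hq, hpd⟩
  have hPcard : P.card = A.card + B.card := by
    rw [hA, hB, add_comm]
    exact (Finset.card_filter_add_card_filter_not _).symm
  -- Chebyshev
  have hcheb : 2 ^ (y - 1) ≤ y + y * P.card := by
    have h1 := cheb (y - 1)
    have h2 : ((range (2 ^ (y - 1) + 1)).filter Nat.Prime).card ≤ P.card := by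
      apply Finset.card_le_card
      intro q hq
      rw [Finset.mem_filter, Finset.mem_range] at hq
      rw [hP, Finset.mem_filter, Finset.mem_range]
      exact ⟨by omega, hq.2⟩
    have h3 : (y - 1) * ((range (2 ^ (y - 1) + 1)).filter Nat.Prime).card ≤ y * P.card :=
      Nat.mul_le_mul (by omega) h2
    omega
  rcases Finset.eq_empty_or_nonempty A with hAe | hAne
  · rw [hAe, Finset.card_empty, zero_add] at hPcard
    omega
  obtain ⟨e, he, hmass⟩ := mass X n hn0 A hAne (kk n) hkX hinj hsm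
  rw [← hP] at hmass
  set a : ℕ → ℕ := fun p => (n + kk n (e p)).factorization p with ha
  have hfle : ∀ p ∈ P, p ^ a p ≤ 2 * n := by
    intro p _
    have h1 : p ^ a p ∣ n + kk n (e p) := Nat.ordProj_dvd _ _
    have h2 := Nat.le_of_dvd (by omega) h1
    have h3 := hkX (e p) (he p)
    omega
  have hbadc := bad_card X n (2 ^ (L / 6)) hn0 P (fun p => p ^ a p) (2 * n) hfle (by omega)
    (by positivity) A.card B.card hPcard hmass rfl
  set Bd := P.filter (fun p => 2 ^ (L / 6) * p ^ a p ≤ n) with hBd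
  have hBdc : (L / 6) * Bd.card ≤ y * X + (P.card + (L + 1) * B.card) := by
    have h1 : 2 ^ ((L / 6) * Bd.card) ≤ 2 ^ (y * X + (P.card + (L + 1) * B.card)) := by
      rw [pow_mul]
      refine hbadc.trans ?_
      rw [pow_add, pow_add]
      apply Nat.mul_le_mul
      · rw [pow_mul]
        exact Nat.pow_le_pow_left hX2.le _
      · apply Nat.mul_le_mul_left
        rw [pow_mul]
        exact Nat.pow_le_pow_left hn2.le _
    exact (Nat.pow_le_pow_iff_right (by norm_num)).1 h1
  set G := P.filter (fun p => n < 2 ^ (L / 6) * p ^ a p ∧ 2 ^ z ≤ p) with hG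
  have hGcard : G.card ≤ 2 ^ (z + 2) := by
    refine few n L w z hw hL2 hn1 hn2 hz (hy ▸ hzL) G ?_ ?_ a (fun p => kk n (e p)) ?_ ?_ ?_
    · intro p hp
      have := (hPmem p (Finset.mem_filter.1 hp).1).1
      rw [← hy]; omega
    · intro p hp; exact (Finset.mem_filter.1 hp).2.2
    · intro p _
      have := hkX (e p) (he p)
      rw [← hy]; omega
    · intro p _; exact Nat.ordProj_dvd _ _
    · intro p hp; exact (Finset.mem_filter.1 hp).2.1
  have hPsub : P ⊆ (Bd ∪ G) ∪ range (2 ^ z) := by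
    intro p hp
    rw [Finset.mem_union, Finset.mem_union, Finset.mem_range]
    by_cases h1 : 2 ^ (L / 6) * p ^ a p ≤ n
    · left; left
      exact Finset.mem_filter.2 ⟨hp, h1⟩
    · by_cases h2 : 2 ^ z ≤ p
      · left; right
        exact Finset.mem_filter.2 ⟨hp, by omega, h2⟩
      · right; omega
  have hPc : P.card ≤ Bd.card + 5 * 2 ^ z := by
    calc P.card ≤ ((Bd ∪ G) ∪ range (2 ^ z)).card := Finset.card_le_card hPsub
      _ ≤ (Bd ∪ G).card + (range (2 ^ z)).card := Finset.card_union_le _ _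
      _ ≤ Bd.card + G.card + 2 ^ z := by
          rw [Finset.card_range]
          exact Nat.add_le_add_right (Finset.card_union_le _ _) _
      _ ≤ Bd.card + 5 * 2 ^ z := by
          have : 2 ^ (z + 2) = 4 * 2 ^ z := by ring
          omega
  -- the numerical part
  have hz2 : L * 2 ^ z ≤ 2 * 2 ^ (y - 1) := by
    calc L * 2 ^ z ≤ 2 ^ w * 2 ^ z := Nat.mul_le_mul_right _ hL2.le
      _ = 2 * 2 ^ (y - 1) := by
        rw [← pow_add, mul_comm, ← pow_succ]; congr 1; omega
  have hX3 : X ≤ 2 * 2 ^ (y - 1) := by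
    have : 2 * 2 ^ (y - 1) = 2 ^ y := by rw [mul_comm, ← pow_succ]; congr 1; omega
    omega
  have hyX : y * X ≤ 2 * y ^ 2 + 2 * (y ^ 2 * P.card) := by
    calc y * X ≤ y * (2 * (y + y * P.card)) := Nat.mul_le_mul_left _ (by omega)
      _ = 2 * y ^ 2 + 2 * (y ^ 2 * P.card) := by ring
  have hyP : 2000 * (y ^ 2 * P.card) ≤ L * P.card := by
    calc 2000 * (y ^ 2 * P.card) = (2000 * y ^ 2) * P.card := by ring
      _ ≤ L * P.card := Nat.mul_le_mul_right _ hzL
  have hyP' : 2000 * (y * P.card) ≤ L * P.card := by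
    calc 2000 * (y * P.card) = (2000 * y) * P.card := by ring
      _ ≤ L * P.card := Nat.mul_le_mul_right _ hyL
  have hz3 : 5 * (L * 2 ^ z) ≤ 10 * y + 10 * (y * P.card) := by omega
  have hL6 : L ≤ 6 * (L / 6) + 5 := by omega
  have hLP : L * P.card ≤ 6 * ((L / 6) * Bd.card) + 5 * Bd.card + 5 * (L * 2 ^ z) := by
    calc L * P.card ≤ L * (Bd.card + 5 * 2 ^ z) := Nat.mul_le_mul_left _ hPc
      _ = L * Bd.card + 5 * (L * 2 ^ z) := by ring
      _ ≤ (6 * (L / 6) + 5) * Bd.card + 5 * (L * 2 ^ z) :=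
          Nat.add_le_add_right (Nat.mul_le_mul_right _ hL6) _
      _ = 6 * ((L / 6) * Bd.card) + 5 * Bd.card + 5 * (L * 2 ^ z) := by ring
  have hBdP : Bd.card ≤ P.card := Finset.card_filter_le _ _
  have hL1000 : 1000 * P.card ≤ L * P.card := Nat.mul_le_mul_right _ (by omega)
  have hPpos : 1 ≤ P.card := by
    rw [Nat.one_le_iff_ne_zero, ← Nat.pos_iff_ne_zero]
    obtain ⟨q, hq⟩ := hAne
    exact Finset.card_pos.2 ⟨q, hAP q hq⟩
  have hLL : L ≤ L * P.card := Nat.le_mul_of_pos_right _ hPpos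
  have hLB : (L + 1) * B.card = L * B.card + B.card := by ring
  rw [hLB] at hBdc
  have hBL : 1000 * B.card ≤ L * B.card := Nat.mul_le_mul_right _ (by omega)
  have hfin : L * P.card ≤ L * (7 * B.card) := by
    have : L * (7 * B.card) = 7 * (L * B.card) := by ring
    rw [this]
    omega
  exact Nat.le_of_mul_le_mul_left hfin (by omega)

open Classical in
/-- Without the primes which divide `n`. -/
theorem prop' (n X L w z : ℕ) (hw : 8 ≤ w) (hL1 : 2 ^ (w - 1) ≤ L) (hL2 : L < 2 ^ w)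
    (hn1 : 2 ^ L ≤ n) (hn2 : n < 2 ^ (L + 1)) (hz : 31 * w ≤ z) (hzL : 2000 * (z + w) ^ 2 ≤ L)
    (hX1 : 2 ^ (z + w - 1) ≤ X) (hX2 : X < 2 ^ (z + w)) :
    ((range (X + 1)).filter Nat.Prime).card ≤
      8 * (((range (X + 1)).filter Nat.Prime).filter
        (fun q => 1 ≤ kk n q ∧ Two n (kk n q))).card := by
  have h := prop n X L w z hw hL1 hL2 hn1 hn2 hz hzL hX1 hX2
  have hn0 : 0 < n := lt_of_lt_of_le (by positivity) hn1
  set P := (range (X + 1)).filter Nat.Prime with hP
  set B := P.filter (fun q => kk n q = 0 ∨ Two n (kk n q)) with hB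
  set B' := P.filter (fun q => 1 ≤ kk n q ∧ Two n (kk n q)) with hB'
  set B0 := P.filter (fun q => kk n q = 0) with hB0
  have h1 : B ⊆ B' ∪ B0 := by
    intro q hq
    rw [hB, Finset.mem_filter] at hq
    refine Finset.mem_union.2 ?_
    rcases Nat.eq_zero_or_pos (kk n q) with h0 | h0
    · exact Or.inr (Finset.mem_filter.2 ⟨hq.1, h0⟩)
    · rcases hq.2 with h2 | h2
      · omega
      · exact Or.inl (Finset.mem_filter.2 ⟨hq.1, h0, h2⟩)
  have h2 : B.card ≤ B'.card + B0.card :=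
    (Finset.card_le_card h1).trans (Finset.card_union_le _ _)
  have h3 : B0.card ≤ L := by
    have h4 : 2 ^ B0.card ≤ n := by
      apply card_le_log _ _ (by omega)
      intro p hp
      rw [hB0, Finset.mem_filter, hP, Finset.mem_filter] at hp
      refine ⟨hp.1.2, ?_⟩
      have h5 := kdvd p n hp.1.2.pos
      have h6 : (p - n % p) % p = 0 := hp.2
      rw [h6, add_zero] at h5
      exact h5
    have h5 := (Nat.pow_lt_pow_iff_right (by norm_num : 1 < 2)).1 (h4.trans_lt hn2)
    omega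
  -- `L` is small
  have hcheb : 2 ^ (z + w - 1) ≤ (z + w) + (z + w) * P.card := by
    have h1 := cheb (z + w - 1)
    have h2 : ((range (2 ^ (z + w - 1) + 1)).filter Nat.Prime).card ≤ P.card := by
      apply Finset.card_le_card
      intro q hq
      rw [Finset.mem_filter, Finset.mem_range] at hq
      rw [hP, Finset.mem_filter, Finset.mem_range]
      exact ⟨by omega, hq.2⟩
    have h3 : (z + w - 1) * ((range (2 ^ (z + w - 1) + 1)).filter Nat.Prime).card ≤
        (z + w) * P.card := Nat.mul_le_mul (by omega) h2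
    omega
  have hbig : L * L * 64 ≤ 2 ^ (z + w - 1) := by
    calc L * L * 64 ≤ 2 ^ w * 2 ^ w * 2 ^ 6 :=
          Nat.mul_le_mul (Nat.mul_le_mul hL2.le hL2.le) (by norm_num)
      _ = 2 ^ (w + w + 6) := by rw [pow_add, pow_add]
      _ ≤ 2 ^ (z + w - 1) := Nat.pow_le_pow_right (by norm_num) (by omega)
  have hyL : z + w ≤ L := by nlinarith
  have h64 : 56 * L ≤ P.card := by
    by_contra hcon
    rw [not_le] at hcon
    have h5 : (z + w) * P.card ≤ L * (56 * L) := Nat.mul_le_mul hyL hcon.le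
    have hL64 : 64 ≤ L := le_trans (by norm_num) (le_trans (Nat.pow_le_pow_right (by norm_num)
      (show 7 ≤ w - 1 by omega)) hL1)
    nlinarith
  omega

open Classical in
/-- Many `k ≤ X` with two prime factors `> k` of `n + k`. -/
theorem shifts (n X L w z : ℕ) (hw : 8 ≤ w) (hL1 : 2 ^ (w - 1) ≤ L) (hL2 : L < 2 ^ w)
    (hn1 : 2 ^ L ≤ n) (hn2 : n < 2 ^ (L + 1)) (hz : 31 * w ≤ z) (hzL : 2000 * (z + w) ^ 2 ≤ L)
    (hX1 : 2 ^ (z + w - 1) ≤ X) (hX2 : X < 2 ^ (z + w)) :
    X ≤ 36 * (L * ((Finset.Icc 1 X).filter (fun k => Two n k)).card) := by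
  have h := prop' n X L w z hw hL1 hL2 hn1 hn2 hz hzL hX1 hX2
  have hn0 : 0 < n := lt_of_lt_of_le (by positivity) hn1
  obtain ⟨y, hy⟩ : ∃ y, y = z + w := ⟨_, rfl⟩
  rw [← hy] at hzL hX1 hX2
  set P := (range (X + 1)).filter Nat.Prime with hP
  set B' := P.filter (fun q => 1 ≤ kk n q ∧ Two n (kk n q)) with hB'
  set E := (Finset.Icc 1 X).filter (fun k => Two n k) with hE
  have hyy : y ≤ y ^ 2 := by nlinarith
  have hyL : 2000 * y ≤ L := le_trans (Nat.mul_le_mul_left _ hyy) hzL
  have hXn : X ≤ n := by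
    refine le_trans hX2.le (le_trans (Nat.pow_le_pow_right (by norm_num) ?_) hn1)
    omega
  have hcheb : 2 ^ (y - 1) ≤ y + y * P.card := by
    have h1 := cheb (y - 1)
    have h2 : ((range (2 ^ (y - 1) + 1)).filter Nat.Prime).card ≤ P.card := by
      apply Finset.card_le_card
      intro q hq
      rw [Finset.mem_filter, Finset.mem_range] at hq
      rw [hP, Finset.mem_filter, Finset.mem_range]
      exact ⟨by omega, hq.2⟩
    have h3 : (y - 1) * ((range (2 ^ (y - 1) + 1)).filter Nat.Prime).card ≤ y * P.card :=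
      Nat.mul_le_mul (by omega) h2
    omega
  obtain ⟨h0, hh0⟩ : ∃ h0, h0 = y / 2 := ⟨_, rfl⟩
  -- big elements of `B'`
  set B2 := B'.filter (fun q => 2 ^ h0 ≤ q) with hB2
  have hB2c : B'.card ≤ B2.card + 2 ^ h0 := by
    have h1 : B' ⊆ B2 ∪ range (2 ^ h0) := by
      intro q hq
      rw [Finset.mem_union, Finset.mem_range]
      by_cases h2 : 2 ^ h0 ≤ q
      · exact Or.inl (Finset.mem_filter.2 ⟨hq, h2⟩)
      · right; omega
    calc B'.card ≤ (B2 ∪ range (2 ^ h0)).card := Finset.card_le_card h1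
      _ ≤ B2.card + (range (2 ^ h0)).card := Finset.card_union_le _ _
      _ = B2.card + 2 ^ h0 := by rw [Finset.card_range]
  have hmaps : ∀ q ∈ B2, kk n q ∈ E := by
    intro q hq
    rw [hB2, Finset.mem_filter, hB', Finset.mem_filter, hP, Finset.mem_filter,
      Finset.mem_range] at hq
    obtain ⟨⟨⟨h1, h2⟩, h3, h4⟩, -⟩ := hq
    rw [hE, Finset.mem_filter, Finset.mem_Icc]
    have : kk n q < q := Nat.mod_lt _ h2.pos
    exact ⟨⟨h3, by omega⟩, h4⟩
  have hfib : ∀ k ∈ E, h0 * (B2.filter (fun q => kk n q = k)).card ≤ L + 1 := by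
    intro k hk
    set F := B2.filter (fun q => kk n q = k) with hF
    rw [hE, Finset.mem_filter, Finset.mem_Icc] at hk
    have h1 : (2 ^ h0) ^ F.card ≤ n + k := by
      calc (2 ^ h0) ^ F.card = ∏ _p ∈ F, 2 ^ h0 := by rw [Finset.prod_const]
        _ ≤ ∏ p ∈ F, p := Finset.prod_le_prod (fun _ _ => by positivity) (fun p hp =>
            (Finset.mem_filter.1 (Finset.mem_filter.1 hp).1).2)
        _ ≤ n + k := by
          apply Nat.le_of_dvd (by omega)
          apply Finset.prod_primes_dvd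
          · intro p hp
            have h2 := (Finset.mem_filter.1 (Finset.mem_filter.1 (Finset.mem_filter.1
              (Finset.mem_filter.1 hp).1).1).1).2
            exact h2.prime
          · intro p hp
            have h2 := (Finset.mem_filter.1 (Finset.mem_filter.1 (Finset.mem_filter.1
              (Finset.mem_filter.1 hp).1).1).1).2
            have h3 : kk n p = k := (Finset.mem_filter.1 hp).2
            have h4 := kdvd p n h2.pos
            rw [← h3]
            exact h4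
    have h2 : 2 ^ (h0 * F.card) < 2 ^ (L + 2) := by
      rw [pow_mul]
      have : 2 ^ (L + 2) = 2 * 2 ^ (L + 1) := by ring
      omega
    have h3 := (Nat.pow_lt_pow_iff_right (by norm_num : 1 < 2)).1 h2
    omega
  have hcount : h0 * B2.card ≤ (L + 1) * E.card := by
    rw [Finset.card_eq_sum_card_fiberwise hmaps, Finset.mul_sum]
    calc ∑ k ∈ E, h0 * (B2.filter (fun q => kk n q = k)).card ≤ ∑ _k ∈ E, (L + 1) :=
          Finset.sum_le_sum hfib
      _ = (L + 1) * E.card := by rw [Finset.sum_const, smul_eq_mul, mul_comm]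
  -- numerical part
  have hy256 : 256 ≤ y := by omega
  have hX3 : X ≤ 2 * 2 ^ (y - 1) := by
    have : 2 * 2 ^ (y - 1) = 2 ^ y := by rw [mul_comm, ← pow_succ]; congr 1; omega
    omega
  have hsmall : 1000 * y * 2 ^ h0 ≤ 2 ^ (y - 1) := by
    have h1 : 1000 * y ≤ 2 ^ (h0 - 1) := by
      have h2 : ∀ m : ℕ, 127 ≤ m → 1000 * (2 * m + 3) ≤ 2 ^ m := by
        intro m hm
        induction m, hm using Nat.le_induction with
        | base => norm_num
        | succ m hm ih => rw [pow_succ]; omega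
      have h3 := h2 (h0 - 1) (by omega)
      exact le_trans (Nat.mul_le_mul_left _ (by omega)) h3
    calc 1000 * y * 2 ^ h0 ≤ 2 ^ (h0 - 1) * 2 ^ h0 := Nat.mul_le_mul_right _ h1
      _ = 2 ^ (h0 - 1 + h0) := by rw [pow_add]
      _ ≤ 2 ^ (y - 1) := Nat.pow_le_pow_right (by norm_num) (by omega)
  -- `X ≤ 2 y + 2 y P`, `P ≤ 8 B'`, `B' ≤ B2 + 2 ^ h0`, `h0 B2 ≤ (L + 1) E`
  have h2h0 : y ≤ 2 * h0 + 1 := by omega
  have e1 : y * P.card ≤ 8 * (y * B2.card) + 8 * (y * 2 ^ h0) := by
    calc y * P.card ≤ y * (8 * (B2.card + 2 ^ h0)) := Nat.mul_le_mul_left _ (by omega)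
      _ = 8 * (y * B2.card) + 8 * (y * 2 ^ h0) := by ring
  have e2 : y * B2.card ≤ 2 * (h0 * B2.card) + B2.card := by
    calc y * B2.card ≤ (2 * h0 + 1) * B2.card := Nat.mul_le_mul_right _ h2h0
      _ = 2 * (h0 * B2.card) + B2.card := by ring
  have e3 : 128 * B2.card ≤ h0 * B2.card := Nat.mul_le_mul_right _ (by omega)
  have e4 : 1000 * y * 2 ^ h0 = 1000 * (y * 2 ^ h0) := by ring
  rw [e4] at hsmall
  have e5 : y ≤ y * 2 ^ h0 := Nat.le_mul_of_pos_right _ (by positivity)
  have e6 : (L + 1) * E.card = L * E.card + E.card := by ring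
  rw [e6] at hcount
  have e7 : 1000 * E.card ≤ L * E.card := Nat.mul_le_mul_right _ (by omega)
  omega

end Pool.Agent.T9h56.ES
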